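import Mathlib

/-!
# Ky Fan norms: singular value decomposition, a duality inequality, and the core estimate
-/

open Module

namespace Pool.Agent.KS6_11.KyFanSharp

variable {E : Type*} [NormedAddCommGroup E] [InnerProductSpace ℂ E] [FiniteDimensional ℂ E]

/-- Singular value decomposition of a linear endomorphism. -/
lemma svd (T : E →ₗ[ℂ] E) {n : ℕ} (hn : finrank ℂ E = n) :
    ∃ b c : OrthonormalBasis (Fin n) ℂ E,
      ∀ l : Fin n, T (b l) = ((T.singularValues l : ℝ) : ℂ) • c l := by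
  set b := T.isSymmetric_adjoint_comp_self.eigenvectorBasis hn with hb
  have hTT : ∀ l : Fin n, (LinearMap.adjoint T ∘ₗ T) (b l)
      = (((T.singularValues l) ^ 2 : ℝ) : ℂ) • b l := by
    intro l
    have h2 := T.isSymmetric_adjoint_comp_self.apply_eigenvectorBasis hn l
    rw [← LinearMap.sq_singularValues_fin T hn l] at h2
    exact h2
  have hin : ∀ l m : Fin n, inner ℂ (T (b l)) (T (b m))
      = if l = m then (((T.singularValues l) ^ 2 : ℝ) : ℂ) else 0 := by
    intro l m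
    rw [← LinearMap.adjoint_inner_right, ← LinearMap.comp_apply, hTT, inner_smul_right,
      orthonormal_iff_ite.1 b.orthonormal]
    split_ifs with h
    · subst h; simp
    · simp
  let s : Set (Fin n) := {l | T.singularValues l ≠ 0}
  let v : Fin n → E := fun l => (((T.singularValues l)⁻¹ : ℝ) : ℂ) • T (b l)
  have hv : Orthonormal ℂ (s.domRestrict v) := by
    rw [orthonormal_iff_ite]
    rintro ⟨l, hl⟩ ⟨m, hm⟩
    have hl' : T.singularValues l ≠ 0 := hl
    have hvv : inner ℂ (v l) (v m) = if l = m then (1 : ℂ) else 0 := by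
      simp only [v, inner_smul_left, inner_smul_right, hin, Complex.conj_ofReal]
      split_ifs with h
      · subst h
        rw [← Complex.ofReal_mul, ← Complex.ofReal_mul]
        have h3 : (T.singularValues l)⁻¹ * ((T.singularValues l)⁻¹ * (T.singularValues l) ^ 2)
          = 1 := by field_simp
        rw [h3]; simp
      · simp
    have h4 : inner ℂ (s.domRestrict v ⟨l, hl⟩) (s.domRestrict v ⟨m, hm⟩) = inner ℂ (v l) (v m) := rfl
    rw [h4, hvv]
    simp only [Subtype.mk.injEq]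
  obtain ⟨c, hc⟩ := hv.exists_orthonormalBasis_extension_of_card_eq (by simp [hn])
  refine ⟨b, c, fun l => ?_⟩
  by_cases hl : T.singularValues l = 0
  · have h0 : T (b l) = 0 := by
      have := hin l l
      rw [if_pos rfl, hl] at this
      simpa using this
    rw [h0, hl]; simp
  · rw [hc l hl]
    simp only [v, smul_smul]
    rw [← Complex.ofReal_mul, mul_inv_cancel₀ hl]
    simp

/-- Weighted sums of an antitone sequence. -/
lemma rearr {n k : ℕ} (hk : 1 ≤ k) (hkn : k ≤ n) (σ : ℕ → ℝ) (hσ : Antitone σ)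
    (h0 : ∀ i, 0 ≤ σ i) (ω : Fin n → ℝ) (m : ℝ) (hω : ∀ i, ω i ≤ m) (hω0 : ∀ i, 0 ≤ ω i)
    (hs : ∑ i, ω i ≤ k * m) :
    ∑ i : Fin n, σ i * ω i ≤ m * ∑ i ∈ Finset.range k, σ i := by
  set τ := σ (k - 1) with hτ
  have h1 : ∑ i : Fin n, (σ i - τ) * ω i
      ≤ ∑ i : Fin n, (if (i : ℕ) < k then (σ i - τ) * m else 0) := by
    refine Finset.sum_le_sum fun i _ => ?_
    split_ifs with h
    · have : τ ≤ σ i := hσ (by omega)
      exact mul_le_mul_of_nonneg_left (hω i) (by linarith)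
    · have : σ i ≤ τ := hσ (by omega)
      exact mul_nonpos_of_nonpos_of_nonneg (by linarith) (hω0 i)
  have h2 : ∑ i : Fin n, (if (i : ℕ) < k then (σ i - τ) * m else 0)
      = ∑ i ∈ Finset.range k, (σ i - τ) * m := by
    rw [Fin.sum_univ_eq_sum_range (fun i => if i < k then (σ i - τ) * m else 0) n]
    rw [← Finset.sum_filter]
    congr 1
    ext i
    simp only [Finset.mem_filter, Finset.mem_range]
    omega
  have h3 : ∑ i ∈ Finset.range k, (σ i - τ) * m = m * ∑ i ∈ Finset.range k, σ i - k * m * τ := by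
    rw [← Finset.sum_mul, Finset.sum_sub_distrib, Finset.sum_const, Finset.card_range,
      nsmul_eq_mul]
    ring
  have h4 : ∑ i : Fin n, (σ i - τ) * ω i = ∑ i : Fin n, σ i * ω i - τ * ∑ i, ω i := by
    rw [Finset.mul_sum, ← Finset.sum_sub_distrib]
    exact Finset.sum_congr rfl fun i _ => by ring
  have h5 : τ * ∑ i, ω i ≤ τ * (k * m) := mul_le_mul_of_nonneg_left hs (h0 _)
  linarith

omit [FiniteDimensional ℂ E] in
/-- Cauchy-Schwarz over an orthonormal basis. -/
lemma cs {ι : Type*} [Fintype ι] (v : OrthonormalBasis ι ℂ E) (x y : E) :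
    ∑ i, ‖inner ℂ x (v i)‖ * ‖inner ℂ (v i) y‖ ≤ ‖x‖ * ‖y‖ := by
  have h := Finset.sum_mul_sq_le_sq_mul_sq Finset.univ (fun i => ‖inner ℂ x (v i)‖)
    (fun i => ‖inner ℂ (v i) y‖)
  rw [v.sum_sq_norm_inner_left, v.sum_sq_norm_inner_right] at h
  have h2 : (∑ i, ‖inner ℂ x (v i)‖ * ‖inner ℂ (v i) y‖) ^ 2 ≤ (‖x‖ * ‖y‖) ^ 2 := by
    rw [mul_pow]; exact h
  exact le_of_sq_le_sq h2 (by positivity)

/-- Duality for the Ky Fan norms. -/
lemma kf (T : E →ₗ[ℂ] E) {n k : ℕ} (hn : finrank ℂ E = n) (hk : 1 ≤ k) (hkn : k ≤ n)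
    (p q : OrthonormalBasis (Fin n) ℂ E) (w : Fin n → ℝ) (m : ℝ) (hw0 : ∀ i, 0 ≤ w i)
    (hwm : ∀ i, w i ≤ m) (hs : ∑ i, w i ≤ k * m) :
    ∑ i, w i * ‖inner ℂ (q i) (T (p i))‖ ≤ m * ∑ i ∈ Finset.range k, T.singularValues i := by
  obtain ⟨b, c, hbc⟩ := svd T hn
  have h1 : ∀ i, ‖inner ℂ (q i) (T (p i))‖
      ≤ ∑ l : Fin n, T.singularValues l * (‖inner ℂ (b l) (p i)‖ * ‖inner ℂ (q i) (c l)‖) := by
    intro i
    have h2 : T (p i) = ∑ l : Fin n,
        (inner ℂ (b l) (p i)) • (((T.singularValues l : ℝ) : ℂ) • c l) := by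
      conv_lhs => rw [← b.sum_repr' (p i)]
      rw [map_sum]
      exact Finset.sum_congr rfl fun l _ => by rw [map_smul, hbc]
    rw [h2, inner_sum]
    refine (norm_sum_le _ _).trans (Finset.sum_le_sum fun l _ => ?_)
    rw [inner_smul_right, inner_smul_right, norm_mul, norm_mul, Complex.norm_real,
      Real.norm_of_nonneg (T.singularValues_nonneg _)]
    exact le_of_eq (by ring)
  let ω : Fin n → ℝ := fun l => ∑ i, w i * (‖inner ℂ (b l) (p i)‖ * ‖inner ℂ (q i) (c l)‖)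
  have hm : 0 ≤ m := by
    have : 0 < n := by omega
    exact (hw0 ⟨0, this⟩).trans (hwm _)
  have hω0 : ∀ l, 0 ≤ ω l := fun l => Finset.sum_nonneg fun i _ =>
    mul_nonneg (hw0 i) (by positivity)
  have hωm : ∀ l, ω l ≤ m := by
    intro l
    have h3 : ∑ i, m * (‖inner ℂ (b l) (p i)‖ * ‖inner ℂ (q i) (c l)‖) ≤ m * 1 := by
      rw [← Finset.mul_sum]
      refine mul_le_mul_of_nonneg_left ?_ hm
      have h5 : ∀ i, ‖inner ℂ (b l) (p i)‖ * ‖inner ℂ (q i) (c l)‖
          ≤ (1 / 2) * ‖inner ℂ (b l) (p i)‖ ^ 2 + (1 / 2) * ‖inner ℂ (q i) (c l)‖ ^ 2 := by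
        intro i
        nlinarith [sq_nonneg (‖inner ℂ (b l) (p i)‖ - ‖inner ℂ (q i) (c l)‖)]
      refine (Finset.sum_le_sum fun i _ => h5 i).trans ?_
      rw [Finset.sum_add_distrib, ← Finset.mul_sum, ← Finset.mul_sum,
        p.sum_sq_norm_inner_left, q.sum_sq_norm_inner_right, b.norm_eq_one, c.norm_eq_one]
      norm_num
    refine (Finset.sum_le_sum fun i _ => ?_).trans (h3.trans (le_of_eq (mul_one m)))
    exact mul_le_mul_of_nonneg_right (hwm i) (by positivity)
  have hωs : ∑ l, ω l ≤ k * m := by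
    refine le_trans ?_ hs
    rw [Finset.sum_comm]
    refine Finset.sum_le_sum fun i _ => ?_
    rw [← Finset.mul_sum]
    have h5 : ∀ l, ‖inner ℂ (b l) (p i)‖ * ‖inner ℂ (q i) (c l)‖
        ≤ (1 / 2) * ‖inner ℂ (b l) (p i)‖ ^ 2 + (1 / 2) * ‖inner ℂ (q i) (c l)‖ ^ 2 := by
      intro l
      nlinarith [sq_nonneg (‖inner ℂ (b l) (p i)‖ - ‖inner ℂ (q i) (c l)‖)]
    have h6 : ∑ l, ‖inner ℂ (b l) (p i)‖ * ‖inner ℂ (q i) (c l)‖ ≤ 1 := by
      refine (Finset.sum_le_sum fun l _ => h5 l).trans ?_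
      rw [Finset.sum_add_distrib, ← Finset.mul_sum, ← Finset.mul_sum,
        b.sum_sq_norm_inner_right, c.sum_sq_norm_inner_left, p.norm_eq_one, q.norm_eq_one]
      norm_num
    calc w i * ∑ l, ‖inner ℂ (b l) (p i)‖ * ‖inner ℂ (q i) (c l)‖ ≤ w i * 1 :=
          mul_le_mul_of_nonneg_left h6 (hw0 i)
      _ = w i := mul_one _
  have hr := rearr hk hkn (fun i => T.singularValues i) T.singularValues_antitone
    T.singularValues_nonneg ω m hωm hω0 hωs
  refine le_trans ?_ hr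
  calc ∑ i, w i * ‖inner ℂ (q i) (T (p i))‖
      ≤ ∑ i, w i * ∑ l : Fin n, T.singularValues l
        * (‖inner ℂ (b l) (p i)‖ * ‖inner ℂ (q i) (c l)‖) :=
        Finset.sum_le_sum fun i _ => mul_le_mul_of_nonneg_left (h1 i) (hw0 i)
    _ = ∑ l : Fin n, T.singularValues l * ω l := by
        simp only [ω, Finset.mul_sum]
        rw [Finset.sum_comm]
        exact Finset.sum_congr rfl fun l _ => Finset.sum_congr rfl fun i _ => by ring

end Pool.Agent.KS6_11.KyFanSharp
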