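import Pool.Agent.KS6_11.KyFanSharp.Abs

/-!
# The core estimate
-/

open Module

namespace Pool.Agent.KS6_11.KyFanSharp

variable {E : Type*} [NormedAddCommGroup E] [InnerProductSpace ℂ E] [FiniteDimensional ℂ E]

/-- The indices below `k`. -/
def J (n k : ℕ) : Finset (Fin n) := Finset.univ.filter fun j => (j : ℕ) < k

lemma card_J {n k : ℕ} (hkn : k ≤ n) : (J n k).card = k := by
  unfold J
  have h : (Finset.univ.filter fun j : Fin n => (j : ℕ) < k)
      = (Finset.univ : Finset (Fin k)).map (Fin.castLEEmb hkn) := by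
    ext j
    simp only [Finset.mem_filter, Finset.mem_univ, true_and, Finset.mem_map, Fin.castLEEmb_apply]
    constructor
    · intro h
      exact ⟨⟨j, h⟩, by ext; simp⟩
    · rintro ⟨i, hi⟩
      rw [← hi]; simp
  rw [h, Finset.card_map, Finset.card_univ, Fintype.card_fin]

lemma sum_J {n k : ℕ} (hkn : k ≤ n) (f : ℕ → ℝ) :
    ∑ j ∈ J n k, f j = ∑ i ∈ Finset.range k, f i := by
  unfold J
  rw [Finset.sum_filter, Fin.sum_univ_eq_sum_range (fun j => if j < k then f j else 0) n,
    ← Finset.sum_filter]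
  congr 1
  ext i
  simp only [Finset.mem_filter, Finset.mem_range]
  omega

/-- `n L` for the operators `A` and `R`. -/
noncomputable def nL (n : ℕ) (A R : E →ₗ[ℂ] E) : E →ₗ[ℂ] E :=
  (n : ℂ) • (A ∘ₗ R) + LinearMap.trace ℂ E A • R - LinearMap.trace ℂ E (A ∘ₗ R) • LinearMap.id

/-- Pointwise estimate. -/
lemma pw {a c X y T : ℝ} (ha : -1 ≤ a) (ha1 : a ≤ 1) (hc : 0 ≤ c) (hc1 : c ≤ 1) (hT : 1 ≤ T)
    (hX : |X| ≤ T) (hy : 0 ≤ y) (hy1 : y ≤ 1) :
    |X - y * (a - c)| ≤ |X| + y * (1 - c * a) - y * (1 - c) * (|X| + X) / T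
      + y * (1 - c) * (1 - a) := by
  have hT0 : 0 < T := by linarith
  have hz : 0 ≤ 1 - c := by linarith
  have hX' := abs_le.1 hX
  rcases le_total X 0 with h | h
  · rw [abs_of_nonpos h]
    have h0 : y * (1 - c) * (-X + X) / T = 0 := by rw [neg_add_cancel]; simp
    rw [h0]
    rw [abs_le]
    constructor
    · nlinarith [mul_nonneg hy (mul_nonneg hz (by linarith : 0 ≤ 1 - a)),
        mul_nonneg hy (mul_nonneg (by linarith : 0 ≤ 1 + c) (by linarith : 0 ≤ 1 - a))]
    · nlinarith [mul_nonneg hy (mul_nonneg hz (by linarith : 0 ≤ 1 - a)),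
        mul_nonneg hy (mul_nonneg hz (by linarith : 0 ≤ 1 + a))]
  · rw [abs_of_nonneg h]
    have h0 : y * (1 - c) * (X + X) / T = 2 * (y * (1 - c)) * (X / T) := by ring
    rw [h0]
    have hXT : X / T ≤ 1 := (div_le_one hT0).2 hX'.2
    have hXT0 : 0 ≤ X / T := div_nonneg h hT0.le
    have hXT2 : X / T ≤ X := div_le_self h hT
    have hyz : 0 ≤ y * (1 - c) := mul_nonneg hy hz
    have hyz1 : y * (1 - c) ≤ 1 := by nlinarith
    rw [abs_le]
    constructor
    · have h5 : y * (1 - c) * (X / T) ≤ X := by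
        calc y * (1 - c) * (X / T) ≤ 1 * (X / T) := mul_le_mul_of_nonneg_right hyz1 hXT0
          _ ≤ X := by linarith
      nlinarith [mul_nonneg hy (mul_nonneg hz (by linarith : 0 ≤ 1 - a)),
        mul_nonneg hy (mul_nonneg (by linarith : 0 ≤ 1 + c) (by linarith : 0 ≤ 1 - a))]
    · nlinarith [mul_nonneg hyz (by linarith : 0 ≤ 1 - X / T)]

/-- Summed form of the pointwise estimate. -/
lemma pws {n : ℕ} (a X : Fin n → ℝ) {c y t K C θ : ℝ} (ha : ∀ i, |a i| ≤ 1) (hc : 0 ≤ c)
    (hc1 : c ≤ 1) (ht0 : 0 ≤ t) (hX : ∀ i, |X i| ≤ 1 + t) (hy : 0 ≤ y) (hy1 : y ≤ 1)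
    (hsa : ∑ i, a i = n * t) (hXs : ∑ i, |X i| ≤ K * (1 + t))
    (hXl : n * y * (1 + t) - n * (1 - t) ≤ ∑ i, X i) (hK : K = n * θ)
    (hC : θ * (1 + t) + y * (1 - t) + y * (1 - c) * (1 - θ - y + (1 - t) / (1 + t)) ≤ θ * C) :
    ∑ i, |X i - y * (a i - c)| ≤ K * C := by
  have hT0 : 0 < 1 + t := by linarith
  have hz : 0 ≤ 1 - c := by linarith
  have hyz : 0 ≤ y * (1 - c) := mul_nonneg hy hz
  have h1 : ∑ i, |X i - y * (a i - c)| ≤ ∑ i, (|X i| + y * (1 - c * a i)
      - y * (1 - c) * (|X i| + X i) / (1 + t) + y * (1 - c) * (1 - a i)) :=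
    Finset.sum_le_sum fun i _ => pw (abs_le.1 (ha i)).1 (abs_le.1 (ha i)).2 hc hc1
      (by linarith) (hX i) hy hy1
  have h2 : ∑ i, (|X i| + y * (1 - c * a i)
      - y * (1 - c) * (|X i| + X i) / (1 + t) + y * (1 - c) * (1 - a i))
      = ∑ i, |X i| + y * (n - c * (n * t)) - y * (1 - c) / (1 + t) * (∑ i, |X i| + ∑ i, X i)
        + y * (1 - c) * (n - n * t) := by
    have h3 : ∀ i, (|X i| + y * (1 - c * a i)
      - y * (1 - c) * (|X i| + X i) / (1 + t) + y * (1 - c) * (1 - a i))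
        = (1 - y * (1 - c) / (1 + t)) * |X i| - y * (1 - c) / (1 + t) * X i
          - (y * c + y * (1 - c)) * a i + (y + y * (1 - c)) := fun i => by ring
    simp only [h3, Finset.sum_add_distrib, Finset.sum_sub_distrib, ← Finset.mul_sum, hsa,
      Finset.sum_const, Finset.card_univ, Fintype.card_fin, nsmul_eq_mul]
    ring
  rw [h2] at h1
  refine h1.trans ?_
  have h4 : 0 ≤ 1 - y * (1 - c) / (1 + t) := by
    have : y * (1 - c) / (1 + t) ≤ 1 := by
      rw [div_le_one hT0]; nlinarith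
    linarith
  have h5 : (1 - y * (1 - c) / (1 + t)) * ∑ i, |X i|
      ≤ (1 - y * (1 - c) / (1 + t)) * (K * (1 + t)) := mul_le_mul_of_nonneg_left hXs h4
  have h6 : y * (1 - c) / (1 + t) * (n * y * (1 + t) - n * (1 - t))
      ≤ y * (1 - c) / (1 + t) * ∑ i, X i := mul_le_mul_of_nonneg_left hXl (by positivity)
  have h7 : (1 - y * (1 - c) / (1 + t)) * (K * (1 + t)) = K * (1 + t) - K * (y * (1 - c)) := by
    field_simp
  have h8 : y * (1 - c) / (1 + t) * (n * y * (1 + t) - n * (1 - t))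
      = n * (y * (1 - c) * y - y * (1 - c) * ((1 - t) / (1 + t))) := by
    field_simp
  have hn : (0 : ℝ) ≤ n := Nat.cast_nonneg n
  have h9 := mul_le_mul_of_nonneg_left hC hn
  rw [hK] at h7 h5 ⊢
  nlinarith

/-- The core estimate. -/
lemma core {n k : ℕ} (hn : finrank ℂ E = n) (hk : 1 ≤ k) (hkn : k ≤ n) (A R : E →ₗ[ℂ] E)
    (hA : A.IsSymmetric) (hR : R.IsSymmetric) (hA1 : ∀ x, ‖A x‖ ≤ ‖x‖) (t : ℝ) (ht0 : 0 ≤ t)
    (hAt : LinearMap.trace ℂ E A = ((n * t : ℝ) : ℂ)) (hR0 : LinearMap.trace ℂ E R = 0)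
    (C c : ℝ) (hc1 : |c| ≤ 1) (hC1 : (2 + t - c * t ≤ C) ∨ (0 ≤ c ∧ ∀ y : ℝ, 0 ≤ y → y ≤ k / n →
      (k / n) * (1 + t) + y * (1 - t) + y * (1 - c) * (1 - k / n - y + (1 - t) / (1 + t))
        ≤ (k / n) * C))
    (hC2 : ∀ a : ℝ, -1 ≤ a → a ≤ 1 → √(1 + t ^ 2 + 2 * t * a) + k / n * |a - c| ≤ C)
    (p q : OrthonormalBasis (Fin n) ℂ E) :
    |∑ j ∈ J n k, (inner ℂ (q j) (nL n A R (p j))).re|
      ≤ n * (C * ∑ i ∈ Finset.range k, R.singularValues i) := by
  have hn0 : (0 : ℝ) < n := by exact_mod_cast (by omega : 0 < n)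
  have hn0' : (n : ℝ) ≠ 0 := hn0.ne'
  set v := hR.eigenvectorBasis hn with hv
  set ρ := hR.eigenvalues hn with hρ
  have hRv : ∀ i, R (v i) = ((ρ i : ℝ) : ℂ) • v i := fun i => hR.apply_eigenvectorBasis hn i
  -- diagonal entries of `A`
  let a : Fin n → ℝ := fun i => (inner ℂ (v i) (A (v i))).re
  have hAa : ∀ i, inner ℂ (v i) (A (v i)) = ((a i : ℝ) : ℂ) := by
    intro i
    have h1 : (starRingEnd ℂ) (inner ℂ (v i) (A (v i))) = inner ℂ (v i) (A (v i)) := by
      rw [inner_conj_symm]; exact hA _ _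
    exact (Complex.conj_eq_iff_re.1 h1).symm
  have ha : ∀ i, |a i| ≤ 1 := by
    intro i
    refine (Complex.abs_re_le_norm _).trans ((norm_inner_le_norm _ _).trans ?_)
    have := hA1 (v i)
    rw [v.norm_eq_one] at this ⊢
    linarith
  have hsa : ∑ i, a i = n * t := by
    have h := LinearMap.trace_eq_sum_inner A v
    rw [hAt] at h
    have h2 : (((∑ i, a i : ℝ)) : ℂ) = ((n * t : ℝ) : ℂ) := by
      rw [h, Complex.ofReal_sum]
      exact Finset.sum_congr rfl fun i _ => (hAa i).symm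
    exact Complex.ofReal_injective h2
  have hsρ : ∑ i, ρ i = 0 := by
    have h := LinearMap.trace_eq_sum_inner R v
    rw [hR0] at h
    have h2 : (((∑ i, ρ i : ℝ)) : ℂ) = ((0 : ℝ) : ℂ) := by
      rw [Complex.ofReal_zero, h, Complex.ofReal_sum]
      refine Finset.sum_congr rfl fun i _ => ?_
      rw [hRv, inner_smul_right, inner_self_eq_norm_sq_to_K, v.norm_eq_one]
      simp
    exact Complex.ofReal_injective h2
  have hsAR : LinearMap.trace ℂ E (A ∘ₗ R) = ((∑ i, ρ i * a i : ℝ) : ℂ) := by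
    rw [LinearMap.trace_eq_sum_inner (A ∘ₗ R) v, Complex.ofReal_sum]
    refine Finset.sum_congr rfl fun i _ => ?_
    rw [LinearMap.comp_apply, hRv, map_smul, inner_smul_right, hAa]
    push_cast; ring
  -- the operator `A + t`
  let At : E →ₗ[ℂ] E := A + ((t : ℝ) : ℂ) • LinearMap.id
  have hAtv : ∀ x, At x = A x + ((t : ℝ) : ℂ) • x := fun x => rfl
  have hAts : At.IsSymmetric := by
    intro x y
    rw [hAtv, hAtv, inner_add_left, inner_add_right, hA x y, inner_smul_left, inner_smul_right,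
      Complex.conj_ofReal]
  have hAtn : ∀ i, ‖At (v i)‖ ≤ √(1 + t ^ 2 + 2 * t * a i) := by
    intro i
    apply Real.le_sqrt_of_sq_le
    rw [hAtv, norm_add_sq (𝕜 := ℂ), inner_smul_right, norm_smul, v.norm_eq_one]
    have h1 : RCLike.re (((t : ℝ) : ℂ) * inner ℂ (A (v i)) (v i)) = t * a i := by
      rw [hA (v i) (v i), hAa, ← Complex.ofReal_mul]
      exact Complex.ofReal_re _
    rw [h1, Complex.norm_real, Real.norm_of_nonneg ht0]
    have h2 := hA1 (v i)
    rw [v.norm_eq_one] at h2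
    have h3 : ‖A (v i)‖ ^ 2 ≤ 1 := by nlinarith [norm_nonneg (A (v i))]
    nlinarith
  have hAtn' : ∀ x, ‖At x‖ ≤ (1 + t) * ‖x‖ := by
    intro x
    rw [hAtv]
    refine (norm_add_le _ _).trans ?_
    rw [norm_smul, Complex.norm_real, Real.norm_of_nonneg ht0]
    have := hA1 x
    linarith
  -- the numbers `X i` and `y`
  let Z : Fin n → ℂ := fun i => ∑ j ∈ J n k, inner ℂ (v i) (p j) * inner ℂ (q j) (At (v i))
  let X : Fin n → ℝ := fun i => (Z i).re
  let y : ℝ := (∑ j ∈ J n k, inner ℂ (q j) (p j) : ℂ).re / n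
  have hy : |y| ≤ k / n := by
    simp only [y]
    rw [abs_div, abs_of_pos hn0]
    refine div_le_div_of_nonneg_right ?_ hn0.le
    refine (Complex.abs_re_le_norm _).trans ((norm_sum_le _ _).trans ?_)
    calc ∑ j ∈ J n k, ‖inner ℂ (q j) (p j)‖ ≤ ∑ j ∈ J n k, (1 : ℝ) := by
          refine Finset.sum_le_sum fun j _ => (norm_inner_le_norm _ _).trans ?_
          rw [q.norm_eq_one, p.norm_eq_one, mul_one]
      _ = k := by rw [Finset.sum_const, card_J hkn]; simp
  -- bounds for `X i`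
  have hXi : ∀ i, |X i| ≤ √(1 + t ^ 2 + 2 * t * a i) := by
    intro i
    refine (Complex.abs_re_le_norm _).trans ((norm_sum_le _ _).trans ?_)
    calc ∑ j ∈ J n k, ‖inner ℂ (v i) (p j) * inner ℂ (q j) (At (v i))‖
        ≤ ∑ j, ‖inner ℂ (v i) (p j) * inner ℂ (q j) (At (v i))‖ :=
          Finset.sum_le_sum_of_subset_of_nonneg (Finset.subset_univ _) fun _ _ _ => norm_nonneg _
      _ = ∑ j, ‖inner ℂ (v i) (p j)‖ * ‖inner ℂ (q j) (At (v i))‖ :=
          Finset.sum_congr rfl fun j _ => norm_mul _ _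
      _ ≤ √(∑ j, ‖inner ℂ (v i) (p j)‖ ^ 2) * √(∑ j, ‖inner ℂ (q j) (At (v i))‖ ^ 2) :=
          Real.sum_mul_le_sqrt_mul_sqrt _ _ _
      _ = ‖At (v i)‖ := by
          rw [p.sum_sq_norm_inner_left, q.sum_sq_norm_inner_right, v.norm_eq_one,
            Real.sqrt_sq (norm_nonneg _)]
          simp
      _ ≤ _ := hAtn i
  have hXs : ∑ i, |X i| ≤ k * (1 + t) := by
    calc ∑ i, |X i| ≤ ∑ i, ∑ j ∈ J n k, ‖inner ℂ (v i) (p j)‖ * ‖inner ℂ (q j) (At (v i))‖ := by
          refine Finset.sum_le_sum fun i _ => ?_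
          refine (Complex.abs_re_le_norm _).trans ((norm_sum_le _ _).trans ?_)
          exact le_of_eq (Finset.sum_congr rfl fun j _ => norm_mul _ _)
      _ = ∑ j ∈ J n k, ∑ i, ‖inner ℂ (At (q j)) (v i)‖ * ‖inner ℂ (v i) (p j)‖ := by
          rw [Finset.sum_comm]
          refine Finset.sum_congr rfl fun j _ => Finset.sum_congr rfl fun i _ => ?_
          rw [hAts (q j) (v i), mul_comm]
      _ ≤ ∑ j ∈ J n k, (1 + t) := by
          refine Finset.sum_le_sum fun j _ => (cs v _ _).trans ?_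
          have := hAtn' (q j)
          rw [q.norm_eq_one] at this
          rw [p.norm_eq_one]; linarith
      _ = k * (1 + t) := by rw [Finset.sum_const, card_J hkn, nsmul_eq_mul]
  -- the identity
  have hid : ∑ j ∈ J n k, (inner ℂ (q j) (nL n A R (p j))).re
      = n * ∑ i, ρ i * (X i - y * (a i - c)) := by
    have h1 : ∀ j, nL n A R (p j) = (n : ℂ) • At (R (p j))
        - ((∑ i, ρ i * a i : ℝ) : ℂ) • p j := by
      intro j
      simp only [nL, LinearMap.sub_apply, LinearMap.add_apply, LinearMap.smul_apply,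
        LinearMap.comp_apply, LinearMap.id_apply, hAtv, hsAR, hAt, smul_add, smul_smul]
      push_cast
      rfl
    have h2 : ∀ j, inner ℂ (q j) (At (R (p j)))
        = ∑ i, ((ρ i : ℝ) : ℂ) * (inner ℂ (v i) (p j) * inner ℂ (q j) (At (v i))) := by
      intro j
      conv_lhs => rw [← v.sum_repr' (p j)]
      rw [map_sum, map_sum, inner_sum]
      refine Finset.sum_congr rfl fun i _ => ?_
      rw [map_smul, map_smul, hRv, map_smul, inner_smul_right, inner_smul_right]
      ring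
    have h3 : ∑ j ∈ J n k, inner ℂ (q j) (nL n A R (p j))
        = (n : ℂ) * (∑ i, ((ρ i : ℝ) : ℂ) * Z i)
          - ((∑ i, ρ i * a i : ℝ) : ℂ) * ∑ j ∈ J n k, inner ℂ (q j) (p j) := by
      simp only [h1, inner_sub_right, inner_smul_right, h2, Finset.sum_sub_distrib, Z,
        Finset.mul_sum]
      congr 1
      rw [Finset.sum_comm]
    have h4 : ∑ j ∈ J n k, (inner ℂ (q j) (nL n A R (p j))).re
        = (∑ j ∈ J n k, inner ℂ (q j) (nL n A R (p j))).re := (Complex.re_sum _ _).symm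
    rw [h4, h3, Complex.sub_re, Complex.re_ofReal_mul]
    have h5 : ((n : ℂ) * (∑ i, ((ρ i : ℝ) : ℂ) * Z i)).re = n * ∑ i, ρ i * X i := by
      have : (n : ℂ) = ((n : ℝ) : ℂ) := by push_cast; rfl
      rw [this, Complex.re_ofReal_mul, Complex.re_sum]
      congr 1
      exact Finset.sum_congr rfl fun i _ => Complex.re_ofReal_mul _ _
    have h6 : (∑ j ∈ J n k, inner ℂ (q j) (p j) : ℂ).re = n * y := by
      simp only [y]; field_simp
    rw [h5, h6]
    have h7 : ∑ i, ρ i * (X i - y * (a i - c)) = ∑ i, ρ i * X i - y * ∑ i, ρ i * a i := by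
      have : ∑ i, ρ i * (X i - y * (a i - c))
          = ∑ i, ρ i * X i - y * ∑ i, ρ i * a i + y * c * ∑ i, ρ i := by
        rw [Finset.mul_sum, Finset.mul_sum, ← Finset.sum_sub_distrib, ← Finset.sum_add_distrib]
        exact Finset.sum_congr rfl fun i _ => by ring
      rw [this, hsρ]; ring
    rw [h7]; ring
  -- the final estimate
  have hw : ∀ i, |X i - y * (a i - c)| ≤ C := by
    intro i
    have h1 := hC2 (a i) (abs_le.1 (ha i)).1 (abs_le.1 (ha i)).2
    have h2 : |y * (a i - c)| ≤ k / n * |a i - c| := by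
      rw [abs_mul]; exact mul_le_mul_of_nonneg_right hy (abs_nonneg _)
    have h3 := abs_sub (X i) (y * (a i - c))
    linarith [hXi i]
  have hws_old : 2 + t - c * t ≤ C → ∑ i, |X i - y * (a i - c)| ≤ k * C := by
    intro hC1
    have h1 : ∀ i, |X i - y * (a i - c)| ≤ |X i| + k / n * (1 - c * a i) := by
      intro i
      have h3 := abs_sub (X i) (y * (a i - c))
      have h2 : |y * (a i - c)| ≤ k / n * (1 - c * a i) := by
        rw [abs_mul]
        refine mul_le_mul hy ?_ (abs_nonneg _) (by positivity)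
        have h5 := abs_le.1 (ha i)
        have h6 := abs_le.1 hc1
        rw [abs_le]
        constructor
        · nlinarith
        · nlinarith
      linarith
    refine (Finset.sum_le_sum fun i _ => h1 i).trans ?_
    rw [Finset.sum_add_distrib, ← Finset.mul_sum, Finset.sum_sub_distrib, ← Finset.mul_sum, hsa]
    rw [Finset.sum_const, Finset.card_univ, Fintype.card_fin, nsmul_eq_mul, mul_one]
    have h7 : (k : ℝ) / n * (n - c * (n * t)) = k * (1 - c * t) := by field_simp
    rw [h7]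
    have hk0 : (0 : ℝ) ≤ k := Nat.cast_nonneg _
    nlinarith
  have hXabs : ∀ i, |X i| ≤ 1 + t := by
    intro i
    refine (hXi i).trans ?_
    rw [Real.sqrt_le_left (by linarith)]
    nlinarith [(abs_le.1 (ha i)).2]
  have hkn1 : (k : ℝ) / n ≤ 1 := by
    rw [div_le_one hn0]; exact_mod_cast hkn
  -- the sum of the `X i`
  have hXsum : |∑ i, X i - n * y * (1 + t)| ≤ n * (1 - t) := by
    have h1 : ∑ i, X i = (∑ j ∈ J n k, inner ℂ (At (q j)) (p j)).re := by
      have h2 : ∑ i, Z i = ∑ j ∈ J n k, inner ℂ (At (q j)) (p j) := by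
        simp only [Z]
        rw [Finset.sum_comm]
        refine Finset.sum_congr rfl fun j _ => ?_
        rw [← v.sum_inner_mul_inner (At (q j)) (p j)]
        refine Finset.sum_congr rfl fun i _ => ?_
        rw [hAts (q j) (v i), mul_comm]
      rw [← h2, Complex.re_sum]
    have h3 : ∀ j, inner ℂ (At (q j)) (p j)
        = ((1 + t : ℝ) : ℂ) * inner ℂ (q j) (p j) - (inner ℂ (q j - A (q j)) (p j)) := by
      intro j
      rw [hAtv, inner_add_left, inner_smul_left, inner_sub_left, Complex.conj_ofReal]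
      push_cast; ring
    have h6 : (∑ j ∈ J n k, inner ℂ (q j) (p j) : ℂ).re = n * y := by
      simp only [y]; field_simp
    have h4 : ∑ i, X i - n * y * (1 + t) = - ∑ j ∈ J n k, (inner ℂ (q j - A (q j)) (p j)).re := by
      rw [h1]
      simp only [h3]
      rw [Finset.sum_sub_distrib, ← Finset.mul_sum, Complex.sub_re, Complex.re_ofReal_mul, h6,
        ← Complex.re_sum]
      ring
    rw [h4, abs_neg]
    -- positivity of `1 - A`
    have hpos : ∀ x, 0 ≤ (inner ℂ (x - A x) x).re := by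
      intro x
      rw [inner_sub_left, Complex.sub_re, inner_self_eq_norm_sq_to_K]
      have h7 : (inner ℂ (A x) x).re ≤ ‖x‖ ^ 2 := by
        refine (Complex.re_le_norm _).trans ((norm_inner_le_norm _ _).trans ?_)
        rw [pow_two]
        exact mul_le_mul_of_nonneg_right (hA1 x) (norm_nonneg _)
      have h8 : (((‖x‖ : ℝ) : ℂ) ^ 2).re = ‖x‖ ^ 2 := by
        rw [← Complex.ofReal_pow]; exact Complex.ofReal_re _
      have h9 : ((RCLike.ofReal ‖x‖ : ℂ) ^ 2).re = ‖x‖ ^ 2 := h8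
      rw [h9]; linarith
    have hsym : ∀ x z, (inner ℂ (x - A x) z).re = (inner ℂ (z - A z) x).re := by
      intro x z
      rw [inner_sub_left, inner_sub_left, Complex.sub_re, Complex.sub_re, hA x z,
        ← inner_conj_symm x z, ← inner_conj_symm x (A z), Complex.conj_re, Complex.conj_re]
    have hcs : ∀ x z, |(inner ℂ (x - A x) z).re|
        ≤ ((inner ℂ (x - A x) x).re + (inner ℂ (z - A z) z).re) / 2 := by
      intro x z
      have e1 := hpos (x + z)
      have e2 := hpos (x - z)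
      have e3 : (x + z) - A (x + z) = (x - A x) + (z - A z) := by rw [map_add]; abel
      have e4 : (x - z) - A (x - z) = (x - A x) - (z - A z) := by rw [map_sub]; abel
      rw [e3, inner_add_left, inner_add_right, inner_add_right, Complex.add_re, Complex.add_re,
        Complex.add_re, hsym z x] at e1
      rw [e4, inner_sub_left, inner_sub_right, inner_sub_right, Complex.sub_re, Complex.sub_re,
        Complex.sub_re, hsym z x] at e2
      rw [abs_le]
      constructor <;> linarith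
    have htr : ∀ u : OrthonormalBasis (Fin n) ℂ E, ∑ j, (inner ℂ (u j - A (u j)) (u j)).re
        = n * (1 - t) := by
      intro u
      have e1 := LinearMap.trace_eq_sum_inner A u
      rw [hAt] at e1
      have e2 : ∀ j, (inner ℂ (u j - A (u j)) (u j)).re = 1 - (inner ℂ (u j) (A (u j))).re := by
        intro j
        rw [inner_sub_left, Complex.sub_re, hA (u j) (u j), inner_self_eq_norm_sq_to_K,
          u.norm_eq_one]
        simp
      have e3 : ∑ j, (inner ℂ (u j) (A (u j))).re = n * t := by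
        rw [← Complex.re_sum, ← e1]; exact Complex.ofReal_re _
      simp only [e2, Finset.sum_sub_distrib, e3]
      rw [Finset.sum_const, Finset.card_univ, Fintype.card_fin, nsmul_eq_mul]
      ring
    calc |∑ j ∈ J n k, (inner ℂ (q j - A (q j)) (p j)).re|
        ≤ ∑ j ∈ J n k, |(inner ℂ (q j - A (q j)) (p j)).re| := Finset.abs_sum_le_sum_abs _ _
      _ ≤ ∑ j, |(inner ℂ (q j - A (q j)) (p j)).re| :=
          Finset.sum_le_sum_of_subset_of_nonneg (Finset.subset_univ _) fun _ _ _ => abs_nonneg _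
      _ ≤ ∑ j, ((inner ℂ (q j - A (q j)) (q j)).re + (inner ℂ (p j - A (p j)) (p j)).re) / 2 :=
          Finset.sum_le_sum fun j _ => hcs _ _
      _ = n * (1 - t) := by
          rw [← Finset.sum_div, Finset.sum_add_distrib, htr q, htr p]; ring
  have hws : ∑ i, |X i - y * (a i - c)| ≤ k * C := by
    rcases hC1 with hC1 | ⟨hc0, hC1⟩
    · exact hws_old hC1
    · have hc1' : c ≤ 1 := (abs_le.1 hc1).2
      have hK : (k : ℝ) = n * (k / n) := by field_simp
      have hyy := abs_le.1 hXsum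
      rcases le_total 0 y with h | h
      · rw [abs_of_nonneg h] at hy
        exact pws a X ha hc0 hc1' ht0 hXabs h (hy.trans hkn1) hsa hXs (by linarith) hK (hC1 y h hy)
      · rw [abs_of_nonpos h] at hy
        have h2 := pws a (fun i => -X i) ha hc0 hc1' ht0 (fun i => by rw [abs_neg]; exact hXabs i)
          (by linarith : 0 ≤ -y) (hy.trans hkn1) hsa (by simpa only [abs_neg] using hXs)
          (by rw [Finset.sum_neg_distrib]; linarith) hK (hC1 (-y) (by linarith) hy)
        refine le_trans (le_of_eq (Finset.sum_congr rfl fun i _ => ?_)) h2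
        rw [← abs_neg]; congr 1; ring
  rw [hid, abs_mul, abs_of_pos hn0]
  refine mul_le_mul_of_nonneg_left ?_ hn0.le
  have hkf := kf R hn hk hkn v v (fun i => |X i - y * (a i - c)|) C (fun i => abs_nonneg _) hw hws
  refine le_trans ?_ hkf
  refine (Finset.abs_sum_le_sum_abs _ _).trans (Finset.sum_le_sum fun i _ => ?_)
  rw [hRv, inner_smul_right, inner_self_eq_norm_sq_to_K, v.norm_eq_one, norm_mul,
    Complex.norm_real, abs_mul, Real.norm_eq_abs, mul_comm]
  simp

end Pool.Agent.KS6_11.KyFanSharp
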