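import Pool.Agent.KS6_11.KyFanSharp.Lower

/-!
# Operator form of the main bounds
-/

open Module

namespace Pool.Agent.KS6_11.KyFanSharp

variable {E : Type*} [NormedAddCommGroup E] [InnerProductSpace ℂ E] [FiniteDimensional ℂ E]

omit [FiniteDimensional ℂ E] in
lemma trace_conj {n : ℕ} (b : OrthonormalBasis (Fin n) ℂ E) (B : E →ₗ[ℂ] E)
    (hB : B.IsSymmetric) : (starRingEnd ℂ) (LinearMap.trace ℂ E B) = LinearMap.trace ℂ E B := by
  rw [LinearMap.trace_eq_sum_inner B b, map_sum]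
  refine Finset.sum_congr rfl fun i _ => ?_
  rw [inner_conj_symm]; exact hB _ _

lemma Rop_symm {n : ℕ} (b : OrthonormalBasis (Fin n) ℂ E) (B : E →ₗ[ℂ] E)
    (hB : B.IsSymmetric) : (Rop n B).IsSymmetric := by
  intro x y
  have h1 := trace_conj b B hB
  simp only [Rop, LinearMap.sub_apply, LinearMap.smul_apply, LinearMap.id_apply, inner_sub_left,
    inner_sub_right, inner_smul_left, inner_smul_right, h1, hB x y]
  simp

lemma Rop_trace {n : ℕ} (hn : finrank ℂ E = n) (B : E →ₗ[ℂ] E) :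
    LinearMap.trace ℂ E (Rop n B) = 0 := by
  simp only [Rop, map_sub, map_smul, LinearMap.trace_id, hn, smul_eq_mul]
  ring

lemma Lop_nL {n : ℕ} (A B : E →ₗ[ℂ] E) :
    (n : ℂ) • Lop n A B = nL n A (Rop n B) := by
  have h1 : A ∘ₗ Rop n B = LinearMap.trace ℂ E B • A - (n : ℂ) • (A ∘ₗ B) := by
    simp only [Rop, LinearMap.comp_sub, LinearMap.comp_smul, LinearMap.comp_id]
  rw [nL, h1, map_sub, map_smul, map_smul]
  simp only [Lop, Rop, smul_eq_mul]
  module

/-- The upper bound. -/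
theorem op_upper {n k : ℕ} (hn : finrank ℂ E = n) (hk : 1 ≤ k) (hkn : k ≤ n)
    (b : OrthonormalBasis (Fin n) ℂ E) (A B : E →ₗ[ℂ] E) (hA : A.IsSymmetric)
    (hB : B.IsSymmetric) {C : ℝ} (hC : Adm C (k / n)) :
    ∑ i ∈ Finset.range k, (Lop n A B).singularValues i
      ≤ C * A.singularValues 0 * ∑ i ∈ Finset.range k, (Rop n B).singularValues i :=
  upper hn hk hkn A (Rop n B) (Lop n A B) hA (Rop_symm b B hB) (Rop_trace hn B)
    (Lop_nL A B) hC

/-- The constant two is needed, for `A = 1`. -/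
theorem op_two {n k : ℕ} (hn : finrank ℂ E = n) (h2 : 2 ≤ n) (hk : 1 ≤ k) (hkn : k ≤ n)
    (e : OrthonormalBasis (Fin n) ℂ E) :
    ∃ A B : E →ₗ[ℂ] E, A.IsSymmetric ∧ B.IsSymmetric ∧ A.singularValues 0 ≤ 1 ∧
      0 < ∑ i ∈ Finset.range k, (Rop n B).singularValues i ∧
      2 * ∑ i ∈ Finset.range k, (Rop n B).singularValues i
        ≤ ∑ i ∈ Finset.range k, (Lop n A B).singularValues i := by
  let i0 : Fin n := ⟨0, by omega⟩
  have hB := rk_symm (e i0)
  have htr : LinearMap.trace ℂ E (rk (e i0) (e i0)) = 1 := by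
    rw [trace_rk e, orthonormal_iff_ite.1 e.orthonormal, if_pos rfl]
  refine ⟨LinearMap.id, rk (e i0) (e i0), fun x y => rfl, hB,
    sv_zero_le _ hn (by omega) (fun x => le_rfl), ?_, ?_⟩
  · have h1 := norm_le_sv (Rop n (rk (e i0) (e i0))) hn (e i0)
    rw [e.norm_eq_one, mul_one] at h1
    have h3 : Rop n (rk (e i0) (e i0)) (e i0) = (1 - n : ℂ) • e i0 := by
      simp only [Rop, htr, LinearMap.sub_apply, LinearMap.smul_apply, LinearMap.id_apply, rk_apply,
        orthonormal_iff_ite.1 e.orthonormal, if_true]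
      module
    rw [h3, norm_smul, e.norm_eq_one, mul_one] at h1
    have h4 : (0 : ℝ) < ‖(1 - n : ℂ)‖ := by
      rw [norm_pos_iff, sub_ne_zero]
      intro h
      have : n = 1 := by exact_mod_cast h.symm
      omega
    calc 0 < (Rop n (rk (e i0) (e i0))).singularValues 0 := lt_of_lt_of_le h4 h1
      _ ≤ ∑ i ∈ Finset.range k, (Rop n (rk (e i0) (e i0))).singularValues i :=
        Finset.single_le_sum (f := fun i => (Rop n (rk (e i0) (e i0))).singularValues i)
          (fun i _ => LinearMap.singularValues_nonneg _ i) (Finset.mem_range.2 hk)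
  · have hL : Lop n LinearMap.id (rk (e i0) (e i0)) = (2 : ℂ) • Rop n (rk (e i0) (e i0)) := by
      simp only [Lop, Rop, LinearMap.id_comp, LinearMap.trace_id, hn]
      module
    obtain ⟨b, c, hbc⟩ := svd (Rop n (rk (e i0) (e i0))) hn
    have hkf := kf (Lop n LinearMap.id (rk (e i0) (e i0))) hn hk hkn b c
      (fun i => if (i : ℕ) < k then 1 else 0) 1 (fun i => by split_ifs <;> norm_num)
      (fun i => by split_ifs <;> norm_num) (by
        rw [← Finset.sum_filter]
        change ∑ i ∈ J n k, (1 : ℝ) ≤ _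
        rw [Finset.sum_const, card_J hkn]; simp)
    rw [one_mul] at hkf
    refine le_trans (le_of_eq ?_) hkf
    have h5 : ∑ i : Fin n, (if (i : ℕ) < k then (1 : ℝ) else 0)
          * ‖inner ℂ (c i) (Lop n LinearMap.id (rk (e i0) (e i0)) (b i))‖
        = ∑ i ∈ J n k, ‖inner ℂ (c i) (Lop n LinearMap.id (rk (e i0) (e i0)) (b i))‖ := by
      unfold J
      rw [Finset.sum_filter]
      exact Finset.sum_congr rfl fun i _ => by split_ifs <;> simp
    rw [h5, ← sum_J hkn (fun i => (Rop n (rk (e i0) (e i0))).singularValues i), Finset.mul_sum]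
    refine Finset.sum_congr rfl fun j _ => ?_
    rw [hL, LinearMap.smul_apply, hbc, inner_smul_right, inner_smul_right,
      inner_self_eq_norm_sq_to_K, c.norm_eq_one, norm_mul, norm_mul, Complex.norm_real,
      Real.norm_of_nonneg (LinearMap.singularValues_nonneg _ _)]
    simp

/-- The lower bound with the optimal parameter. -/
theorem op_lower {n k : ℕ} (hn : finrank ℂ E = n) (h3 : 3 ≤ k) (hkn : k ≤ n) (hnk : n ≤ 2 * k)
    (e : OrthonormalBasis (Fin n) ℂ E) :
    ∃ A B : E →ₗ[ℂ] E, A.IsSymmetric ∧ B.IsSymmetric ∧ A.singularValues 0 ≤ 1 ∧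
      ∑ i ∈ Finset.range k, (Rop n B).singularValues i ≤ 2 * n ∧
      2 * n * (1 + (k : ℝ) / n + n / (4 * k) - 5 / n)
        ≤ ∑ i ∈ Finset.range k, (Lop n A B).singularValues i := by
  have hk0 : (0 : ℝ) < k := by exact_mod_cast (by omega : 0 < k)
  have hn0 : (0 : ℝ) < n := by exact_mod_cast (by omega : 0 < n)
  obtain ⟨s, hs⟩ : ∃ s : ℝ, s = n / (2 * k) := ⟨_, rfl⟩
  have hsk : 2 * k * s = n := by rw [hs]; field_simp
  have hs0 : 0 ≤ s := by rw [hs]; positivity
  have hs1 : s ≤ 1 := by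
    rw [hs, div_le_one (by positivity)]; exact_mod_cast hnk
  have hrs : (√(1 - s ^ 2)) ^ 2 + s ^ 2 = 1 := by
    rw [Real.sq_sqrt (by nlinarith)]; ring
  obtain ⟨A, B, hA, hB, h1, h2, h4⟩ := family hn h3 hkn e (√(1 - s ^ 2)) s hrs
  refine ⟨A, B, hA, hB, h1, h2, le_trans ?_ h4⟩
  rw [Real.sq_sqrt (by nlinarith)]
  have e1 : 2 * n * (1 + (k : ℝ) / n + n / (4 * k) - 5 / n) = 2 * n + 2 * k + s * n - 10 := by
    rw [hs]; field_simp; ring
  rw [e1]
  have e2 : s ^ 2 * k * 2 = s * n := by rw [← hsk]; ring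
  have e3 : 0 ≤ s * (1 - s) * (1 + s) := by
    have := mul_nonneg (mul_nonneg hs0 (by linarith : 0 ≤ 1 - s)) (by linarith : 0 ≤ 1 + s)
    exact this
  nlinarith [mul_nonneg hs0 hs0, mul_nonneg (mul_nonneg hs0 hs0) hs0, sq_nonneg s]

end Pool.Agent.KS6_11.KyFanSharp
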