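import Pool.Agent.KS6_11.KyFanSharp.Upper

/-!
# The lower bound: a family of examples
-/

open Module

namespace Pool.Agent.KS6_11.KyFanSharp

variable {E : Type*} [NormedAddCommGroup E] [InnerProductSpace ℂ E] [FiniteDimensional ℂ E]

/-- `L` for operators. -/
noncomputable def Lop (n : ℕ) (A B : E →ₗ[ℂ] E) : E →ₗ[ℂ] E :=
  LinearMap.trace ℂ E (A ∘ₗ B) • LinearMap.id - LinearMap.trace ℂ E A • B
    + LinearMap.trace ℂ E B • A - (n : ℂ) • (A ∘ₗ B)

/-- `R` for operators. -/
noncomputable def Rop (n : ℕ) (B : E →ₗ[ℂ] E) : E →ₗ[ℂ] E :=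
  LinearMap.trace ℂ E B • LinearMap.id - (n : ℂ) • B

/-- The rank one operator `x ↦ ⟨w, x⟩ u`. -/
noncomputable def rk (u w : E) : E →ₗ[ℂ] E := (innerₛₗ ℂ w).smulRight u

omit [FiniteDimensional ℂ E] in
lemma rk_apply (u w x : E) : rk u w x = inner ℂ w x • u := rfl

omit [FiniteDimensional ℂ E] in
lemma rk_symm (u : E) : (rk u u).IsSymmetric := by
  intro x y
  rw [rk_apply, rk_apply, inner_smul_left, inner_smul_right, inner_conj_symm, mul_comm]

omit [FiniteDimensional ℂ E] in
lemma trace_rk {n : ℕ} (e : OrthonormalBasis (Fin n) ℂ E) (u w : E) :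
    LinearMap.trace ℂ E (rk u w) = inner ℂ w u := by
  rw [LinearMap.trace_eq_sum_inner _ e, ← e.sum_inner_mul_inner w u]
  exact Finset.sum_congr rfl fun i _ => by rw [rk_apply, inner_smul_right]

lemma sv_zero_le (T : E →ₗ[ℂ] E) {n : ℕ} (hn : finrank ℂ E = n) (hn0 : 0 < n)
    (h : ∀ x, ‖T x‖ ≤ ‖x‖) : T.singularValues 0 ≤ 1 := by
  obtain ⟨b, c, hbc⟩ := svd T hn
  have h1 := h (b ⟨0, hn0⟩)
  rw [hbc, norm_smul, b.norm_eq_one, c.norm_eq_one, Complex.norm_real,
    Real.norm_of_nonneg (T.singularValues_nonneg _), mul_one] at h1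
  exact h1

/-- The orthonormal test family. -/
noncomputable def qv {n : ℕ} (e : Fin n → E) (i0 i1 i2 : Fin n) (r s : ℂ) : Fin n → E := fun i =>
  if i = i0 then -e i0 else if i = i1 then s • e i1 - r • e i2
  else if i = i2 then r • e i1 + s • e i2 else e i

omit [FiniteDimensional ℂ E] in
lemma qv_orth {n : ℕ} (e : Fin n → E) (he : Orthonormal ℂ e) (i0 i1 i2 : Fin n) (r s : ℂ)
    (h01 : i0 ≠ i1) (h02 : i0 ≠ i2) (h12 : i1 ≠ i2) (hrs : r ^ 2 + s ^ 2 = 1)
    (hr : (starRingEnd ℂ) r = r) (hs : (starRingEnd ℂ) s = s) :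
    Orthonormal ℂ (qv e i0 i1 i2 r s) := by
  rw [orthonormal_iff_ite] at he ⊢
  intro i j
  unfold qv
  by_cases hi0 : i = i0
  · rw [if_pos hi0]
    by_cases hj0 : j = i0
    · rw [if_pos hj0]; simp [he, hi0, hj0, -inner_self_eq_norm_sq_to_K]
    by_cases hj1 : j = i1
    · rw [if_neg hj0, if_pos hj1]
      simp [he, hi0, hj1, h01, h02, inner_sub_right, inner_smul_right]
    by_cases hj2 : j = i2
    · rw [if_neg hj0, if_neg hj1, if_pos hj2]
      simp [he, hi0, hj2, h01, h02, inner_add_right, inner_smul_right]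
    · rw [if_neg hj0, if_neg hj1, if_neg hj2]
      simp [he, hi0, Ne.symm hj0]
  by_cases hi1 : i = i1
  · rw [if_neg hi0, if_pos hi1]
    by_cases hj0 : j = i0
    · rw [if_pos hj0]
      simp [he, hi1, hj0, h01.symm, h02.symm, inner_sub_left, inner_smul_left]
    by_cases hj1 : j = i1
    · rw [if_neg hj0, if_pos hj1]
      simp [he, hi1, hj1, h12, h12.symm, inner_sub_left, inner_sub_right,
        inner_smul_left, inner_smul_right, hr, hs, -inner_self_eq_norm_sq_to_K]
      linear_combination hrs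
    by_cases hj2 : j = i2
    · rw [if_neg hj0, if_neg hj1, if_pos hj2]
      simp [he, hi1, hj2, h12, h12.symm, inner_sub_left, inner_add_right,
        inner_smul_left, inner_smul_right, hr, hs, -inner_self_eq_norm_sq_to_K]
      ring
    · rw [if_neg hj0, if_neg hj1, if_neg hj2]
      simp [he, hi1, Ne.symm hj1, Ne.symm hj2, inner_sub_left, inner_smul_left]
  by_cases hi2 : i = i2
  · rw [if_neg hi0, if_neg hi1, if_pos hi2]
    by_cases hj0 : j = i0
    · rw [if_pos hj0]
      simp [he, hi2, hj0, h01.symm, h02.symm, inner_add_left, inner_smul_left]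
    by_cases hj1 : j = i1
    · rw [if_neg hj0, if_pos hj1]
      simp [he, hi2, hj1, h12, h12.symm, inner_add_left, inner_sub_right,
        inner_smul_left, inner_smul_right, hr, hs, -inner_self_eq_norm_sq_to_K]
      ring
    by_cases hj2 : j = i2
    · rw [if_neg hj0, if_neg hj1, if_pos hj2]
      simp [he, hi2, hj2, h12, h12.symm, inner_add_left, inner_add_right,
        inner_smul_left, inner_smul_right, hr, hs, -inner_self_eq_norm_sq_to_K]
      linear_combination hrs
    · rw [if_neg hj0, if_neg hj1, if_neg hj2]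
      simp [he, hi2, Ne.symm hj1, Ne.symm hj2, inner_add_left, inner_smul_left]
  · rw [if_neg hi0, if_neg hi1, if_neg hi2]
    by_cases hj0 : j = i0
    · rw [if_pos hj0]
      simp [he, hi0, hj0]
    by_cases hj1 : j = i1
    · rw [if_neg hj0, if_pos hj1]
      simp [he, hi1, hi2, hj1, inner_sub_right, inner_smul_right]
    by_cases hj2 : j = i2
    · rw [if_neg hj0, if_neg hj1, if_pos hj2]
      simp [he, hi1, hi2, hj2, inner_add_right, inner_smul_right]
    · rw [if_neg hj0, if_neg hj1, if_neg hj2]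
      exact he i j

/-- The family of examples, in operator form. -/
theorem family {n k : ℕ} (hn : finrank ℂ E = n) (h3 : 3 ≤ k) (hkn : k ≤ n)
    (e : OrthonormalBasis (Fin n) ℂ E) (r s : ℝ) (hrs : r ^ 2 + s ^ 2 = 1) :
    ∃ A B : E →ₗ[ℂ] E, A.IsSymmetric ∧ B.IsSymmetric ∧ A.singularValues 0 ≤ 1 ∧
      ∑ i ∈ Finset.range k, (Rop n B).singularValues i ≤ 2 * n ∧
      2 * n * (1 + s) + 2 * r ^ 2 * k - 2 - 8 * r ^ 2 - 2 * s + 4 * r ^ 2 * s
        ≤ ∑ i ∈ Finset.range k, (Lop n A B).singularValues i := by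
  have hnpos : 0 < n := by omega
  let i0 : Fin n := ⟨0, by omega⟩
  let i1 : Fin n := ⟨1, by omega⟩
  let i2 : Fin n := ⟨2, by omega⟩
  have h01 : i0 ≠ i1 := by simp [i0, i1]
  have h02 : i0 ≠ i2 := by simp [i0, i2]
  have h12 : i1 ≠ i2 := by simp [i1, i2]
  have he : ∀ i j, inner ℂ (e i) (e j) = if i = j then (1 : ℂ) else 0 :=
    fun i j => orthonormal_iff_ite.1 e.orthonormal i j
  obtain ⟨rc, hrc⟩ : ∃ rc : ℂ, rc = (r : ℂ) := ⟨_, rfl⟩
  obtain ⟨sc, hsc⟩ : ∃ sc : ℂ, sc = (s : ℂ) := ⟨_, rfl⟩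
  have hr : (starRingEnd ℂ) rc = rc := by rw [hrc]; exact Complex.conj_ofReal r
  have hs : (starRingEnd ℂ) sc = sc := by rw [hsc]; exact Complex.conj_ofReal s
  have hrs' : rc ^ 2 + sc ^ 2 = 1 := by rw [hrc, hsc]; exact_mod_cast hrs
  have hq := qv_orth e e.orthonormal i0 i1 i2 rc sc h01 h02 h12 hrs' hr hs
  have hq' : ∀ i j, inner ℂ (qv e i0 i1 i2 rc sc i) (qv e i0 i1 i2 rc sc j)
      = if i = j then (1 : ℂ) else 0 := fun i j => orthonormal_iff_ite.1 hq i j
  obtain ⟨q, hqq⟩ : ∃ q : OrthonormalBasis (Fin n) ℂ E, ∀ i, q i = qv e i0 i1 i2 rc sc i := by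
    have h1 : Orthonormal ℂ ((Set.univ : Set (Fin n)).domRestrict (qv e i0 i1 i2 rc sc)) :=
      hq.comp (fun x : (Set.univ : Set (Fin n)) => (x : Fin n)) Subtype.val_injective
    obtain ⟨q, hq2⟩ := h1.exists_orthonormalBasis_extension_of_card_eq (by simp [hn])
    exact ⟨q, fun i => hq2 i (Set.mem_univ _)⟩
  have hq0 : q i0 = -e i0 := by rw [hqq]; simp [qv]
  have hq1 : q i1 = sc • e i1 - rc • e i2 := by rw [hqq]; simp [qv, h01.symm]
  have hq2 : q i2 = rc • e i1 + sc • e i2 := by rw [hqq]; simp [qv, h02.symm, h12.symm]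
  have hq3 : ∀ i, i ≠ i0 → i ≠ i1 → i ≠ i2 → q i = e i := by
    intro i h0 h1 h2
    rw [hqq]; simp [qv, h0, h1, h2]
  obtain ⟨a, ha⟩ : ∃ a : E, a = q i2 := ⟨_, rfl⟩
  have haa : inner ℂ a a = (1 : ℂ) := by
    rw [ha, orthonormal_iff_ite.1 q.orthonormal, if_pos rfl]
  have hq1a : inner ℂ (q i1) a = (0 : ℂ) := by
    rw [ha, orthonormal_iff_ite.1 q.orthonormal, if_neg h12]
  have hae0 : inner ℂ a (e i0) = (0 : ℂ) := by
    rw [ha, hq2, inner_add_left, inner_smul_left, inner_smul_left, he, he, if_neg h01.symm,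
      if_neg h02.symm]; simp
  have hae1 : inner ℂ a (e i1) = rc := by
    rw [ha, hq2, inner_add_left, inner_smul_left, inner_smul_left, he, he, if_pos rfl,
      if_neg h12.symm, hr]; simp
  have he1a : inner ℂ (e i1) a = rc := by
    rw [← inner_conj_symm, hae1, hr]
  have he0a : inner ℂ (e i0) a = (0 : ℂ) := by
    rw [← inner_conj_symm, hae0]; simp
  let A : E →ₗ[ℂ] E := LinearMap.id - (2 : ℂ) • rk a a
  let B : E →ₗ[ℂ] E := rk (e i0) (e i0) - rk (e i1) (e i1)
  have hAx : ∀ x, A x = x - (2 * inner ℂ a x) • a := by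
    intro x
    simp only [A, LinearMap.sub_apply, LinearMap.id_apply, LinearMap.smul_apply, rk_apply,
      smul_smul]
  have hBx : ∀ x, B x = inner ℂ (e i0) x • e i0 - inner ℂ (e i1) x • e i1 := fun x => rfl
  have hAs : A.IsSymmetric := by
    intro x y
    have h2 : (starRingEnd ℂ) (2 : ℂ) = 2 := by
      have := Complex.conj_ofReal 2
      simpa using this
    rw [hAx, hAx, inner_sub_left, inner_sub_right, inner_smul_left, inner_smul_right, map_mul,
      inner_conj_symm, h2]
    ring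
  have hBs : B.IsSymmetric := by
    intro x y
    have h1 := rk_symm (e i0) x y
    have h2 := rk_symm (e i1) x y
    simp only [B, LinearMap.sub_apply, inner_sub_left, inner_sub_right, h1, h2]
  have hAA : ∀ x, A (A x) = x := by
    intro x
    rw [hAx (A x), hAx x, inner_sub_right, inner_smul_right, haa]
    module
  have hAn : ∀ x, ‖A x‖ ≤ ‖x‖ := by
    intro x
    have h1 : inner ℂ (A x) (A x) = inner ℂ x x := by rw [hAs x (A x), hAA]
    rw [inner_self_eq_norm_sq_to_K, inner_self_eq_norm_sq_to_K] at h1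
    have h2 : ‖A x‖ ^ 2 = ‖x‖ ^ 2 := by exact_mod_cast h1
    exact le_of_sq_le_sq h2.le (norm_nonneg _)
  have htrA : LinearMap.trace ℂ E A = (n : ℂ) - 2 := by
    simp only [A, map_sub, map_smul, trace_rk e, haa, smul_eq_mul, mul_one]
    rw [LinearMap.trace_id, hn]
  have htrB : LinearMap.trace ℂ E B = 0 := by
    simp only [B, map_sub, trace_rk e, he, if_true, sub_self]
  have htrAB : LinearMap.trace ℂ E (A ∘ₗ B) = 2 * rc ^ 2 := by
    have h1 : A ∘ₗ B = B - (2 : ℂ) • rk a (B a) := by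
      apply LinearMap.ext
      intro x
      calc (A ∘ₗ B) x = A (B x) := rfl
        _ = B x - (2 * inner ℂ a (B x)) • a := hAx _
        _ = B x - (2 * inner ℂ (B a) x) • a := by rw [hBs a x]
        _ = B x - (2 : ℂ) • (inner ℂ (B a) x • a) := by rw [smul_smul]
        _ = (B - (2 : ℂ) • rk a (B a)) x := rfl
    rw [h1, map_sub, map_smul, trace_rk e, htrB, hBs a a, hBx, he0a, he1a, inner_sub_right,
      inner_smul_right, inner_smul_right, hae0, hae1]
    simp only [smul_eq_mul]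
    ring
  refine ⟨A, B, hAs, hBs, sv_zero_le A hn hnpos hAn, ?_, ?_⟩
  · -- the norm of `R`
    have hR : Rop n B = -((n : ℂ) • B) := by
      unfold Rop; rw [htrB, zero_smul, zero_sub]
    obtain ⟨b, c, hbc⟩ := svd (Rop n B) hn
    have h1 : ∑ i ∈ Finset.range k, (Rop n B).singularValues i
        = ∑ j ∈ J n k, ‖inner ℂ (c j) (Rop n B (b j))‖ := by
      rw [← sum_J hkn (fun i => (Rop n B).singularValues i)]
      refine Finset.sum_congr rfl fun j _ => ?_
      rw [hbc, inner_smul_right, inner_self_eq_norm_sq_to_K, c.norm_eq_one]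
      simp [Real.norm_of_nonneg ((Rop n B).singularValues_nonneg j)]
    have h2 : ∀ j, ‖inner ℂ (c j) (Rop n B (b j))‖
        ≤ n * ((‖inner ℂ (e i0) (b j)‖ ^ 2 + ‖inner ℂ (c j) (e i0)‖ ^ 2) / 2
          + (‖inner ℂ (e i1) (b j)‖ ^ 2 + ‖inner ℂ (c j) (e i1)‖ ^ 2) / 2) := by
      intro j
      rw [hR, LinearMap.neg_apply, LinearMap.smul_apply, inner_neg_right, inner_smul_right,
        norm_neg, norm_mul, hBx, inner_sub_right, inner_smul_right, inner_smul_right]
      rw [Complex.norm_natCast]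
      refine mul_le_mul_of_nonneg_left ?_ (Nat.cast_nonneg _)
      refine (norm_sub_le _ _).trans ?_
      rw [norm_mul, norm_mul]
      nlinarith [sq_nonneg (‖inner ℂ (e i0) (b j)‖ - ‖inner ℂ (c j) (e i0)‖),
        sq_nonneg (‖inner ℂ (e i1) (b j)‖ - ‖inner ℂ (c j) (e i1)‖)]
    rw [h1]
    calc ∑ j ∈ J n k, ‖inner ℂ (c j) (Rop n B (b j))‖
        ≤ ∑ j, ‖inner ℂ (c j) (Rop n B (b j))‖ :=
          Finset.sum_le_sum_of_subset_of_nonneg (Finset.subset_univ _) fun _ _ _ => norm_nonneg _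
      _ ≤ ∑ j, n * ((‖inner ℂ (e i0) (b j)‖ ^ 2 + ‖inner ℂ (c j) (e i0)‖ ^ 2) / 2
          + (‖inner ℂ (e i1) (b j)‖ ^ 2 + ‖inner ℂ (c j) (e i1)‖ ^ 2) / 2) :=
          Finset.sum_le_sum fun j _ => h2 j
      _ = 2 * n := by
          rw [← Finset.mul_sum, Finset.sum_add_distrib, ← Finset.sum_div, ← Finset.sum_div,
            Finset.sum_add_distrib, Finset.sum_add_distrib, b.sum_sq_norm_inner_left,
            b.sum_sq_norm_inner_left, c.sum_sq_norm_inner_right, c.sum_sq_norm_inner_right,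
            e.norm_eq_one, e.norm_eq_one]
          ring
  · -- the norm of `L`
    have hL : ∀ x, Lop n A B x = (2 * rc ^ 2) • x - ((2 * n - 2 : ℂ)) • B x
        + (2 * n * inner ℂ a (B x)) • a := by
      intro x
      simp only [Lop, htrAB, htrA, htrB, zero_smul, add_zero, LinearMap.sub_apply,
        LinearMap.smul_apply, LinearMap.id_apply, LinearMap.comp_apply, hAx]
      module
    have hLi : ∀ i, inner ℂ (q i) (Lop n A B (e i)) = (2 * rc ^ 2) * inner ℂ (q i) (e i)
        - (2 * n - 2 : ℂ) * inner ℂ (q i) (B (e i))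
        + 2 * n * inner ℂ a (B (e i)) * inner ℂ (q i) a := by
      intro i
      rw [hL, inner_add_right, inner_sub_right, inner_smul_right, inner_smul_right,
        inner_smul_right]
    have hB0 : B (e i0) = e i0 := by
      rw [hBx, he, he, if_pos rfl, if_neg h01.symm]; simp
    have hB1 : B (e i1) = -e i1 := by
      rw [hBx, he, he, if_pos rfl, if_neg h01]; simp
    have hB2 : ∀ i, i ≠ i0 → i ≠ i1 → B (e i) = 0 := by
      intro i h0 h1
      rw [hBx, he, he, if_neg h0.symm, if_neg h1.symm]; simp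
    let g : Fin n → ℝ := fun i => 2 * r ^ 2 + (if i = i0 then 2 * n - 2 - 4 * r ^ 2 else 0)
      + (if i = i1 then s * (2 * r ^ 2 + 2 * n - 2) - 2 * r ^ 2 else 0)
      + (if i = i2 then 2 * r ^ 2 * s - 2 * r ^ 2 else 0)
    have hg : ∀ i, inner ℂ (q i) (Lop n A B (e i)) = ((g i : ℝ) : ℂ) := by
      intro i
      rw [hLi]
      simp only [g]
      by_cases h0 : i = i0
      · subst h0
        rw [if_pos rfl, if_neg h01, if_neg h02, hB0, hq0, hae0, inner_neg_left, he, if_pos rfl, hrc]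
        push_cast; ring
      by_cases h1 : i = i1
      · subst h1
        rw [if_neg h0, if_pos rfl, if_neg h12, hB1, hq1a, inner_neg_right, hq1, inner_sub_left,
          inner_smul_left, inner_smul_left, he, he, if_pos rfl, if_neg h12.symm, hs, hrc, hsc]
        push_cast; ring
      by_cases h2 : i = i2
      · subst h2
        rw [if_neg h0, if_neg h1, if_pos rfl, hB2 _ h0 h1, hq2, inner_add_left,
          inner_smul_left, inner_smul_left, he, he, if_pos rfl, if_neg h12, hs, hrc, hsc,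
          inner_zero_right, inner_zero_right]
        push_cast; ring
      · rw [if_neg h0, if_neg h1, if_neg h2, hB2 _ h0 h1, hq3 i h0 h1 h2, he, if_pos rfl,
          inner_zero_right, inner_zero_right, hrc]
        push_cast; ring
    have hkf := kf (Lop n A B) hn (by omega : 1 ≤ k) hkn e q
      (fun i => if (i : ℕ) < k then 1 else 0) 1 (fun i => by split_ifs <;> norm_num)
      (fun i => by split_ifs <;> norm_num) (by
        rw [← Finset.sum_filter]
        change ∑ i ∈ J n k, (1 : ℝ) ≤ _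
        rw [Finset.sum_const, card_J hkn]; simp)
    rw [one_mul] at hkf
    refine le_trans ?_ hkf
    have h5 : ∑ i : Fin n, (if (i : ℕ) < k then (1 : ℝ) else 0) * ‖inner ℂ (q i) (Lop n A B (e i))‖
        = ∑ i ∈ J n k, ‖inner ℂ (q i) (Lop n A B (e i))‖ := by
      unfold J
      rw [Finset.sum_filter]
      exact Finset.sum_congr rfl fun i _ => by split_ifs <;> simp
    rw [h5]
    have h6 : ∑ i ∈ J n k, g i ≤ ∑ i ∈ J n k, ‖inner ℂ (q i) (Lop n A B (e i))‖ := by
      refine Finset.sum_le_sum fun i _ => ?_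
      rw [hg, Complex.norm_real]
      exact le_abs_self _
    refine le_trans (le_of_eq ?_) h6
    have hm0 : i0 ∈ J n k := by simp [J, i0]; omega
    have hm1 : i1 ∈ J n k := by simp [J, i1]; omega
    have hm2 : i2 ∈ J n k := by simp [J, i2]; omega
    simp only [g, Finset.sum_add_distrib, Finset.sum_ite_eq', hm0, hm1, hm2, if_true,
      Finset.sum_const, card_J hkn, nsmul_eq_mul]
    ring

end Pool.Agent.KS6_11.KyFanSharp
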