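import Pool.Agent.KS6_11.KyFanSharp.Core

/-!
# The upper bound
-/

open Module

namespace Pool.Agent.KS6_11.KyFanSharp

variable {E : Type*} [NormedAddCommGroup E] [InnerProductSpace ℂ E] [FiniteDimensional ℂ E]

lemma norm_le_sv (A : E →ₗ[ℂ] E) {n : ℕ} (hn : finrank ℂ E = n) (x : E) :
    ‖A x‖ ≤ A.singularValues 0 * ‖x‖ := by
  obtain ⟨b, c, hbc⟩ := svd A hn
  have h1 : A x = ∑ l : Fin n, (inner ℂ (b l) x * ((A.singularValues l : ℝ) : ℂ)) • c l := by
    conv_lhs => rw [← b.sum_repr' x]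
    rw [map_sum]
    exact Finset.sum_congr rfl fun l _ => by rw [map_smul, hbc, smul_smul]
  have h2 : ∀ l : Fin n, inner ℂ (c l) (A x) = inner ℂ (b l) x * ((A.singularValues l : ℝ) : ℂ) := by
    intro l
    rw [h1, inner_sum]
    simp only [inner_smul_right, orthonormal_iff_ite.1 c.orthonormal]
    simp
  have h3 : ‖A x‖ ^ 2 ≤ (A.singularValues 0 * ‖x‖) ^ 2 := by
    rw [← c.sum_sq_norm_inner_right (A x), mul_pow, ← b.sum_sq_norm_inner_right x, Finset.mul_sum]
    refine Finset.sum_le_sum fun l _ => ?_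
    rw [h2, norm_mul, Complex.norm_real, Real.norm_of_nonneg (A.singularValues_nonneg _), mul_pow,
      mul_comm]
    refine mul_le_mul_of_nonneg_right ?_ (by positivity)
    have := A.singularValues_antitone (Nat.zero_le (l : ℕ))
    have h0 := A.singularValues_nonneg (l : ℕ)
    exact pow_le_pow_left₀ h0 this 2
  exact le_of_sq_le_sq h3 (mul_nonneg (A.singularValues_nonneg _) (norm_nonneg _))

lemma sqrt_bound {t a u : ℝ} (hu : 0 ≤ u) (h : 1 + t ^ 2 + 2 * t * a ≤ u ^ 2) :
    √(1 + t ^ 2 + 2 * t * a) ≤ u := Real.sqrt_le_iff.2 ⟨hu, h⟩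

/-- Admissible pairs of a constant and a ratio. -/
def Adm (C θ : ℝ) : Prop := (C = 2 ∧ θ ≤ 1 / 2) ∨ (C = 1 + θ + 1 / (4 * θ) ∧ 1 / 2 ≤ θ ∧ θ ≤ 1)

lemma adm_cond {C θ : ℝ} (h : Adm C θ) (hθ0 : 0 ≤ θ) {t : ℝ} (ht0 : 0 ≤ t) (ht1 : t ≤ 1) :
    ∃ c : ℝ, |c| ≤ 1 ∧ ((2 + t - c * t ≤ C) ∨ (0 ≤ c ∧ ∀ y : ℝ, 0 ≤ y → y ≤ θ →
      θ * (1 + t) + y * (1 - t) + y * (1 - c) * (1 - θ - y + (1 - t) / (1 + t)) ≤ θ * C)) ∧
      ∀ a : ℝ, -1 ≤ a → a ≤ 1 → √(1 + t ^ 2 + 2 * t * a) + θ * |a - c| ≤ C := by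
  rcases h with ⟨rfl, hθ1⟩ | ⟨hCdef, hθ2, hθ1⟩
  · refine ⟨1, by simp, Or.inl (by linarith), ?_⟩
    intro a ha ha'
    have h1 : θ * |a - 1| ≤ 1 / 2 * |a - 1| := mul_le_mul_of_nonneg_right hθ1 (abs_nonneg _)
    have h3 : √(1 + t ^ 2 + 2 * t * a) ≤ (3 + a) / 2 := by
      refine sqrt_bound (by linarith) ?_
      nlinarith [mul_nonneg ht0 (by linarith : 0 ≤ 1 - t), sq_nonneg (1 - a),
        mul_nonneg (by linarith : 0 ≤ 1 - t) (by nlinarith : 0 ≤ (1 + a) * (5 + a)),
        mul_nonneg ht0 (sq_nonneg (1 - a))]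
    rw [abs_of_nonpos (by linarith : a - 1 ≤ 0)] at h1 ⊢
    linarith
  · have hθpos : 0 < θ := by linarith
    obtain ⟨u, hu⟩ : ∃ u : ℝ, u = 1 / (2 * θ) := ⟨_, rfl⟩
    have huθ : 2 * θ * u = 1 := by rw [hu]; field_simp
    have hC : C = 1 + θ + u / 2 := by rw [hCdef, hu]; field_simp; ring
    clear hCdef hu
    subst hC
    have hu1 : 1 / 2 ≤ u := by nlinarith
    have hu2 : u ≤ 1 := by nlinarith
    have hθu2 : θ * u ^ 2 = u / 2 := by nlinarith
    rcases le_total t (1 - u) with htu | htu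
    · -- regime B
      have hc0 : 0 ≤ u ^ 2 + 2 * u * t := by positivity
      have hc1 : u ^ 2 + 2 * u * t ≤ 1 := by nlinarith [sq_nonneg (1 - u)]
      refine ⟨u ^ 2 + 2 * u * t, by rw [abs_of_nonneg hc0]; exact hc1, Or.inl ?_, ?_⟩
      · have h1 : 0 ≤ 8 * u * (θ * (1 - u) ^ 2 - t * (1 - u ^ 2) + 2 * u * t ^ 2) := by
          have h2 : 8 * u * (θ * (1 - u) ^ 2 - t * (1 - u ^ 2) + 2 * u * t ^ 2)
              = (4 * u * t - (1 - u ^ 2)) ^ 2 + (1 - u) ^ 2 * ((1 - u) * (3 + u)) := by
            have : 8 * u * (θ * (1 - u) ^ 2 - t * (1 - u ^ 2) + 2 * u * t ^ 2)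
              = 4 * (2 * θ * u) * (1 - u) ^ 2 - 8 * u * t * (1 - u ^ 2) + 16 * u ^ 2 * t ^ 2 := by
              ring
            rw [this, huθ]; ring
          rw [h2]
          have : 0 ≤ (1 - u) * (3 + u) := mul_nonneg (by linarith) (by linarith)
          positivity
        have h3 : 0 ≤ θ * (1 - u) ^ 2 - t * (1 - u ^ 2) + 2 * u * t ^ 2 := by
          by_contra hneg
          push Not at hneg
          have : 8 * u * (θ * (1 - u) ^ 2 - t * (1 - u ^ 2) + 2 * u * t ^ 2) < 0 :=
            mul_neg_of_pos_of_neg (by linarith) hneg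
          linarith
        have h4 : θ * (1 - u) ^ 2 = θ - 1 + u / 2 := by
          have : θ * (1 - u) ^ 2 = θ - 2 * θ * u + θ * u ^ 2 := by ring
          rw [this, huθ, hθu2]
        nlinarith
      · intro a ha ha'
        rcases le_total (u ^ 2 + 2 * u * t) a with h2 | h2
        · have h3 : √(1 + t ^ 2 + 2 * t * a) ≤ 1 + t := sqrt_bound (by linarith) (by nlinarith)
          rw [abs_of_nonneg (by linarith : 0 ≤ a - (u ^ 2 + 2 * u * t))]
          have h4 : θ * (a - (u ^ 2 + 2 * u * t)) ≤ θ * (1 - (u ^ 2 + 2 * u * t)) :=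
            mul_le_mul_of_nonneg_left (by linarith) hθ0
          have h5 : θ * (1 - (u ^ 2 + 2 * u * t)) = θ - u / 2 - t := by
            have : θ * (1 - (u ^ 2 + 2 * u * t)) = θ - θ * u ^ 2 - (2 * θ * u) * t := by ring
            rw [this, huθ, hθu2]; ring
          linarith
        · have hb : 0 ≤ 1 + a := by linarith
          have hkey : t ≤ θ * (1 - t) := by
            have h6 : 2 * u * t ≤ 1 - t := by nlinarith
            have h7 := mul_le_mul_of_nonneg_left h6 hθ0
            have h8 : θ * (2 * u * t) = (2 * θ * u) * t := by ring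
            rw [h8, huθ] at h7
            linarith
          have h3 : √(1 + t ^ 2 + 2 * t * a) ≤ 1 - t + θ * (1 + a) := by
            refine sqrt_bound (by nlinarith) ?_
            have h9 := mul_le_mul_of_nonneg_right hkey hb
            nlinarith [sq_nonneg (θ * (1 + a))]
          rw [abs_of_nonpos (by linarith : a - (u ^ 2 + 2 * u * t) ≤ 0)]
          have h5 : θ * (-(a - (u ^ 2 + 2 * u * t))) = u / 2 + t - θ * a := by
            have : θ * (-(a - (u ^ 2 + 2 * u * t))) = θ * u ^ 2 + (2 * θ * u) * t - θ * a := by ring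
            rw [this, huθ, hθu2]; ring
          rw [h5]; linarith
    · -- regime A
      have hc0 : 0 ≤ 2 * u - u ^ 2 := by nlinarith
      have hc1 : 2 * u - u ^ 2 ≤ 1 := by nlinarith [sq_nonneg (1 - u)]
      have h4 : θ * (1 - u) ^ 2 = θ - 1 + u / 2 := by
        have : θ * (1 - u) ^ 2 = θ - 2 * θ * u + θ * u ^ 2 := by ring
        rw [this, huθ, hθu2]
      refine ⟨2 * u - u ^ 2, by rw [abs_of_nonneg hc0]; exact hc1, ?_, ?_⟩
      · rcases le_total t θ with htθ | htθ
        · left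
          have h5 : t * (1 - u) ^ 2 ≤ θ * (1 - u) ^ 2 :=
            mul_le_mul_of_nonneg_right htθ (sq_nonneg _)
          nlinarith
        · right
          refine ⟨hc0, fun y hy hyθ => ?_⟩
          have he : (1 - t) / (1 + t) ≤ 1 / 3 := by
            rw [div_le_div_iff₀ (by linarith) (by norm_num)]; linarith
          have h5 : y * (1 - t) ≤ θ * (1 - t) := mul_le_mul_of_nonneg_right hyθ (by linarith)
          have h6 : y * (1 - θ - y + (1 - t) / (1 + t)) ≤ θ ^ 2 := by
            have h7 : y * (1 - θ - y + (1 - t) / (1 + t)) ≤ y * (4 / 3 - θ - y) :=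
              mul_le_mul_of_nonneg_left (by linarith) hy
            have h8 : y * (4 / 3 - θ - y) ≤ θ ^ 2 := by
              nlinarith [sq_nonneg (y - (4 / 3 - θ) / 2)]
            linarith
          have h9 : (1 - u) ^ 2 * (y * (1 - θ - y + (1 - t) / (1 + t))) ≤ (1 - u) ^ 2 * θ ^ 2 :=
            mul_le_mul_of_nonneg_left h6 (sq_nonneg _)
          have h10 : y * (1 - (2 * u - u ^ 2)) * (1 - θ - y + (1 - t) / (1 + t))
              = (1 - u) ^ 2 * (y * (1 - θ - y + (1 - t) / (1 + t))) := by ring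
          have h11 : (1 - u) ^ 2 * θ ^ 2 = θ * (θ - 1 + u / 2) := by rw [← h4]; ring
          rw [h10]
          rw [h11] at h9
          nlinarith
      · intro a ha ha'
        rcases le_total (2 * u - u ^ 2) a with h2 | h2
        · have h3 : √(1 + t ^ 2 + 2 * t * a) ≤ 1 + t := sqrt_bound (by linarith) (by nlinarith)
          rw [abs_of_nonneg (by linarith : 0 ≤ a - (2 * u - u ^ 2))]
          have h5 : θ * (a - (2 * u - u ^ 2)) ≤ θ * (1 - u) ^ 2 := by
            refine mul_le_mul_of_nonneg_left ?_ hθ0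
            nlinarith
          linarith
        · have hb : 0 ≤ 1 + a := by linarith
          have h3 : √(1 + t ^ 2 + 2 * t * a) ≤ u + θ * (1 + a) := by
            refine sqrt_bound (by nlinarith) ?_
            have e0 : (u + θ * (1 + a)) ^ 2 = u ^ 2 + (1 + a) + θ ^ 2 * (1 + a) ^ 2 := by
              have : (u + θ * (1 + a)) ^ 2
                = u ^ 2 + (2 * θ * u) * (1 + a) + θ ^ 2 * (1 + a) ^ 2 := by ring
              rw [this, huθ]; ring
            rw [e0]
            have e1 : 1 - t ≤ u := by linarith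
            rcases le_total (1 / 2) (1 - t) with h6 | h6
            · nlinarith [sq_nonneg (θ * (1 + a)), mul_nonneg hb (by linarith : 0 ≤ 2 * (1 - t) - 1)]
            · have e2 : (θ * (1 + a) - u * (1 - 2 * (1 - t))) ^ 2
                  = θ ^ 2 * (1 + a) ^ 2 - (1 + a) * (1 - 2 * (1 - t))
                    + u ^ 2 * (1 - 2 * (1 - t)) ^ 2 := by
                have : (θ * (1 + a) - u * (1 - 2 * (1 - t))) ^ 2
                  = θ ^ 2 * (1 + a) ^ 2 - (2 * θ * u) * (1 + a) * (1 - 2 * (1 - t))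
                    + u ^ 2 * (1 - 2 * (1 - t)) ^ 2 := by ring
                rw [this, huθ]; ring
              have e3 : 0 ≤ (1 - t) * (4 * u ^ 2 - (4 * u ^ 2 + 1) * (1 - t)) := by
                refine mul_nonneg (by linarith) ?_
                nlinarith
              nlinarith [sq_nonneg (θ * (1 + a) - u * (1 - 2 * (1 - t)))]
          rw [abs_of_nonpos (by linarith : a - (2 * u - u ^ 2) ≤ 0)]
          have h5 : θ * (-(a - (2 * u - u ^ 2))) = 1 - u / 2 - θ * a := by
            have : θ * (-(a - (2 * u - u ^ 2))) = 2 * θ * u - θ * u ^ 2 - θ * a := by ring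
            rw [this, huθ, hθu2]
          rw [h5]; linarith

/-- The upper bound for operators. -/
theorem upper {n k : ℕ} (hn : finrank ℂ E = n) (hk : 1 ≤ k) (hkn : k ≤ n) (A R Lm : E →ₗ[ℂ] E)
    (hA : A.IsSymmetric) (hR : R.IsSymmetric) (hR0 : LinearMap.trace ℂ E R = 0)
    (hL : (n : ℂ) • Lm = nL n A R) {C : ℝ} (hC : Adm C (k / n)) :
    ∑ i ∈ Finset.range k, Lm.singularValues i
      ≤ C * A.singularValues 0 * ∑ i ∈ Finset.range k, R.singularValues i := by
  have hn0 : (0 : ℝ) < n := by exact_mod_cast (by omega : 0 < n)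
  have hn0' : (n : ℝ) ≠ 0 := hn0.ne'
  set s := A.singularValues 0 with hs
  have hs0 : 0 ≤ s := A.singularValues_nonneg 0
  have hC0 : 0 ≤ C := by
    rcases hC with ⟨rfl, _⟩ | ⟨rfl, h1, _⟩
    · norm_num
    · have : (0 : ℝ) ≤ k / n := by positivity
      positivity
  have hRs : 0 ≤ ∑ i ∈ Finset.range k, R.singularValues i :=
    Finset.sum_nonneg fun i _ => R.singularValues_nonneg i
  rcases hs0.eq_or_lt with h0 | hspos
  · have hA0 : A = 0 := by
      ext x
      have := norm_le_sv A hn x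
      rw [← hs, ← h0, zero_mul] at this
      simpa using norm_le_zero_iff.1 this
    have hL0 : Lm = 0 := by
      have h1 : (n : ℂ) • Lm = 0 := by rw [hL]; simp [nL, hA0]
      rcases smul_eq_zero.1 h1 with h2 | h2
      · exfalso; exact hn0' (by exact_mod_cast h2)
      · exact h2
    rw [hL0, LinearMap.singularValues_zero]
    simp only [Finsupp.coe_zero, Pi.zero_apply, Finset.sum_const_zero]
    positivity
  · -- the trace of `A` is real
    obtain ⟨τ, hτ⟩ : ∃ τ : ℝ, LinearMap.trace ℂ E A = (τ : ℂ) ∧ |τ| ≤ n * s := by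
      set v := hA.eigenvectorBasis hn
      have hAv : ∀ i, A (v i) = ((hA.eigenvalues hn i : ℝ) : ℂ) • v i :=
        fun i => hA.apply_eigenvectorBasis hn i
      refine ⟨∑ i, hA.eigenvalues hn i, ?_, ?_⟩
      · rw [LinearMap.trace_eq_sum_inner A v, Complex.ofReal_sum]
        refine Finset.sum_congr rfl fun i _ => ?_
        rw [hAv, inner_smul_right, inner_self_eq_norm_sq_to_K, v.norm_eq_one]
        simp
      · refine (Finset.abs_sum_le_sum_abs _ _).trans ?_
        have h1 : ∀ i, |hA.eigenvalues hn i| ≤ s := by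
          intro i
          have h2 := norm_le_sv A hn (v i)
          rw [hAv, norm_smul, v.norm_eq_one, Complex.norm_real, mul_one, mul_one,
            Real.norm_eq_abs] at h2
          exact h2
        refine (Finset.sum_le_sum fun i _ => h1 i).trans ?_
        simp
    obtain ⟨hτ1, hτ2⟩ := hτ
    -- the sign
    obtain ⟨ε, hε, hετ⟩ : ∃ ε : ℝ, (ε = 1 ∨ ε = -1) ∧ ε * τ = |τ| := by
      rcases le_total 0 τ with h | h
      · exact ⟨1, Or.inl rfl, by rw [abs_of_nonneg h, one_mul]⟩
      · exact ⟨-1, Or.inr rfl, by rw [abs_of_nonpos h]; ring⟩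
    have hεε : ε * ε = 1 := by rcases hε with rfl | rfl <;> norm_num
    have hεabs : |ε| = 1 := by rcases hε with rfl | rfl <;> norm_num
    let A' : E →ₗ[ℂ] E := ((ε / s : ℝ) : ℂ) • A
    have hA' : A'.IsSymmetric := by
      intro x y
      simp only [A', LinearMap.smul_apply, inner_smul_left, inner_smul_right, Complex.conj_ofReal]
      rw [hA x y]
    have hA'1 : ∀ x, ‖A' x‖ ≤ ‖x‖ := by
      intro x
      simp only [A', LinearMap.smul_apply, norm_smul, Complex.norm_real, Real.norm_eq_abs, abs_div,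
        hεabs, abs_of_pos hspos]
      have := norm_le_sv A hn x
      rw [← hs] at this
      calc 1 / s * ‖A x‖ ≤ 1 / s * (s * ‖x‖) := mul_le_mul_of_nonneg_left this (by positivity)
        _ = ‖x‖ := by field_simp
    set t : ℝ := |τ| / (s * n) with ht
    have ht0 : 0 ≤ t := by positivity
    have ht1 : t ≤ 1 := by
      rw [ht, div_le_one (by positivity)]; linarith
    have hA't : LinearMap.trace ℂ E A' = ((n * t : ℝ) : ℂ) := by
      simp only [A', map_smul, hτ1, smul_eq_mul]
      rw [← Complex.ofReal_mul]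
      congr 1
      rw [ht, ← hετ]; field_simp
    obtain ⟨c, hc1, hC1, hC2⟩ := adm_cond hC (by positivity) ht0 ht1
    obtain ⟨b, cc, hbc⟩ := svd Lm hn
    have hcore := core hn hk hkn A' R hA' hR hA'1 t ht0 hA't hR0 C c hc1 hC1 hC2 b cc
    have hnL : (n : ℂ) • Lm = ((ε * s : ℝ) : ℂ) • nL n A' R := by
      have h1 : A = ((ε * s : ℝ) : ℂ) • A' := by
        simp only [A', smul_smul, ← Complex.ofReal_mul]
        have : ε * s * (ε / s) = 1 := by field_simp; rw [pow_two]; exact hεε
        rw [this]; simp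
      rw [hL]
      conv_lhs => rw [h1]
      simp only [nL, LinearMap.smul_comp, map_smul, smul_add, smul_sub, smul_smul, smul_eq_mul]
      congr 3
      ring
    have h3 : ∑ i ∈ Finset.range k, Lm.singularValues i
        = ∑ j ∈ J n k, (inner ℂ (cc j) (Lm (b j))).re := by
      rw [← sum_J hkn (fun i => Lm.singularValues i)]
      refine Finset.sum_congr rfl fun j _ => ?_
      rw [hbc, inner_smul_right, inner_self_eq_norm_sq_to_K, cc.norm_eq_one]
      simp
    have h4 : n * ∑ j ∈ J n k, (inner ℂ (cc j) (Lm (b j))).re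
        = ε * s * ∑ j ∈ J n k, (inner ℂ (cc j) (nL n A' R (b j))).re := by
      rw [Finset.mul_sum, Finset.mul_sum]
      refine Finset.sum_congr rfl fun j _ => ?_
      have h5 := congrArg (fun S : E →ₗ[ℂ] E => (inner ℂ (cc j) (S (b j))).re) hnL
      simp only [LinearMap.smul_apply, inner_smul_right] at h5
      have h6 : (n : ℂ) = ((n : ℝ) : ℂ) := by push_cast; rfl
      rw [h6, Complex.re_ofReal_mul, Complex.re_ofReal_mul] at h5
      exact h5
    have h7 : n * ∑ i ∈ Finset.range k, Lm.singularValues i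
        ≤ n * (C * s * ∑ i ∈ Finset.range k, R.singularValues i) := by
      rw [h3, h4]
      calc ε * s * ∑ j ∈ J n k, (inner ℂ (cc j) (nL n A' R (b j))).re
          ≤ |ε * s * ∑ j ∈ J n k, (inner ℂ (cc j) (nL n A' R (b j))).re| := le_abs_self _
        _ = s * |∑ j ∈ J n k, (inner ℂ (cc j) (nL n A' R (b j))).re| := by
            rw [abs_mul, abs_mul, hεabs, abs_of_pos hspos, one_mul]
        _ ≤ s * (n * (C * ∑ i ∈ Finset.range k, R.singularValues i)) :=
            mul_le_mul_of_nonneg_left hcore hs0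
        _ = _ := by ring
    exact le_of_mul_le_mul_left h7 hn0

end Pool.Agent.KS6_11.KyFanSharp
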